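import Pool.Agent.helper3.SG.SpecS

set_option autoImplicit false

open MeasureTheory Set Metric Filter Topology
open scoped ENNReal NNReal ComplexConjugate commutatorElement

namespace Pool.Agent.SG

/-- bounded real sequences converge along an ultrafilter -/
theorem S24_lim (U : Ultrafilter ℕ) (f : ℕ → ℝ) (a b : ℝ)
    (h : ∀ᶠ k in (U : Filter ℕ), f k ∈ Icc a b) : ∃ x, Tendsto f U (𝓝 x) := by
  have h1 : ((U.map f : Ultrafilter ℝ) : Filter ℝ) ≤ 𝓟 (Icc a b) := by
    rw [Filter.le_principal_iff]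
    exact h
  obtain ⟨x, _, hx⟩ := (isCompact_Icc (a := a) (b := b)).ultrafilter_le_nhds (U.map f) h1
  exact ⟨x, hx⟩

section
variable {Γ : Type} [Group Γ]

theorem S24_nonneg (h2 : S02_stmt) (A : DiscRep Γ) (g : Γ) : 0 ≤ A.L g := by
  have := (h2 Γ A).1 g
  have := Real.log_nonneg this
  unfold DiscRep.L
  linarith

theorem S24_one (h1 : S01_stmt) (A : DiscRep Γ) : A.L 1 = 0 := by
  obtain ⟨ε, hε, ha, _⟩ := (h1 Γ A).2.1
  unfold DiscRep.L
  rw [ha]
  rcases hε with h | h <;> rw [h] <;> simp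

theorem S24_inv (h2 : S02_stmt) (A : DiscRep Γ) (g : Γ) : A.L g⁻¹ = A.L g := by
  unfold DiscRep.L
  rw [(h2 Γ A).2.2.2.1 g]

theorem S24_mul (h2 : S02_stmt) (A : DiscRep Γ) (g h : Γ) :
    A.L (g * h) ≤ A.L g + A.L h + 2 * Real.log 2 := by
  have hg := (h2 Γ A).1 g
  have hh := (h2 Γ A).1 h
  have hgh := (h2 Γ A).1 (g * h)
  have hm := (h2 Γ A).2.2.1 g h
  have h3 : Real.log ‖A.a (g * h)‖ ≤ Real.log (2 * ‖A.a g‖ * ‖A.a h‖) :=
    Real.log_le_log (by linarith) hm
  rw [Real.log_mul (by positivity) (by positivity), Real.log_mul (by norm_num) (by positivity)] at h3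
  unfold DiscRep.L
  linarith

theorem S24_gp (h2 : S02_stmt) (A : DiscRep Γ) (g h : Γ) :
    0 < ‖1 - conj (A.pt g) * A.pt h‖ ∧ gp A.L g h = -Real.log ‖1 - conj (A.pt g) * A.pt h‖ := by
  have hg := (h2 Γ A).1 g
  have hh := (h2 Γ A).1 h
  have hgh := (h2 Γ A).1 (g⁻¹ * h)
  have hm := (h2 Γ A).2.2.2.2.2.2.1 g h
  have hpos : 0 < ‖1 - conj (A.pt g) * A.pt h‖ := by
    rcases (norm_nonneg (1 - conj (A.pt g) * A.pt h)).eq_or_lt with h0 | h0
    · rw [← h0] at hm
      simp only [zero_mul] at hm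
      linarith
    · exact h0
  refine ⟨hpos, ?_⟩
  have h3 : Real.log ‖A.a (g⁻¹ * h)‖ =
      Real.log ‖1 - conj (A.pt g) * A.pt h‖ + Real.log ‖A.a g‖ + Real.log ‖A.a h‖ := by
    rw [hm, Real.log_mul (by positivity) (by positivity), Real.log_mul (by positivity) (by positivity)]
  unfold gp DiscRep.L
  rw [h3]
  ring

theorem S24_pt (h2 : S02_stmt) (A : DiscRep Γ) (g : Γ) : ‖A.pt g‖ < 1 := by
  have hg := (h2 Γ A).1 g
  have hp := (h2 Γ A).2.2.2.2.1 g
  have hn := A.norm_eq g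
  rw [hp, norm_div, Complex.norm_conj, div_lt_one (by linarith)]
  nlinarith [norm_nonneg (A.b g)]

/-- the elementary inequality behind the 4 point condition -/
theorem S24_diff (y z : ℂ) (hy : ‖y‖ ≤ 1) (hz : ‖z‖ ≤ 1) : ‖y - z‖ ≤ ‖1 - conj y * z‖ := by
  have h1 : ‖1 - conj y * z‖ ^ 2 - ‖y - z‖ ^ 2 = (1 - ‖y‖ ^ 2) * (1 - ‖z‖ ^ 2) := by
    rw [Complex.sq_norm, Complex.sq_norm, Complex.sq_norm, Complex.sq_norm]
    simp only [Complex.normSq_apply, Complex.sub_re, Complex.sub_im, Complex.mul_re,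
      Complex.mul_im, Complex.conj_re, Complex.conj_im, Complex.one_re, Complex.one_im]
    ring
  have h2 : 0 ≤ (1 - ‖y‖ ^ 2) * (1 - ‖z‖ ^ 2) := by
    apply mul_nonneg
    · nlinarith [norm_nonneg y]
    · nlinarith [norm_nonneg z]
  by_contra hlt
  push Not at hlt
  nlinarith [norm_nonneg (1 - conj y * z), norm_nonneg (y - z)]

theorem S24_tri (x y z : ℂ) (hx : ‖x‖ ≤ 1) (hy : ‖y‖ ≤ 1) (hz : ‖z‖ ≤ 1) :
    ‖1 - conj x * z‖ ≤ ‖1 - conj x * y‖ + ‖1 - conj y * z‖ := by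
  have h1 : (1 : ℂ) - conj x * z = (1 - conj x * y) + conj x * (y - z) := by ring
  rw [h1]
  refine (norm_add_le _ _).trans ?_
  have h2 : ‖conj x * (y - z)‖ ≤ ‖1 - conj y * z‖ := by
    rw [norm_mul, Complex.norm_conj]
    have h3 := S24_diff y z hy hz
    nlinarith [norm_nonneg (y - z), norm_nonneg x]
  linarith

theorem S24_four (h2 : S02_stmt) (A : DiscRep Γ) (g h k : Γ) :
    min (gp A.L g h) (gp A.L h k) - Real.log 2 ≤ gp A.L g k := by
  obtain ⟨p1, e1⟩ := S24_gp h2 A g h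
  obtain ⟨p2, e2⟩ := S24_gp h2 A h k
  obtain ⟨p3, e3⟩ := S24_gp h2 A g k
  have ht := S24_tri (A.pt g) (A.pt h) (A.pt k) (S24_pt h2 A g).le (S24_pt h2 A h).le
    (S24_pt h2 A k).le
  rw [e1, e2, e3]
  rcases le_total ‖1 - conj (A.pt g) * A.pt h‖ ‖1 - conj (A.pt h) * A.pt k‖ with hc | hc
  · have h4 : Real.log ‖1 - conj (A.pt g) * A.pt k‖ ≤
        Real.log (2 * ‖1 - conj (A.pt h) * A.pt k‖) := Real.log_le_log p3 (by linarith)
    rw [Real.log_mul (by norm_num) (by positivity)] at h4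
    have h5 := min_le_right (-Real.log ‖1 - conj (A.pt g) * A.pt h‖)
      (-Real.log ‖1 - conj (A.pt h) * A.pt k‖)
    linarith
  · have h4 : Real.log ‖1 - conj (A.pt g) * A.pt k‖ ≤
        Real.log (2 * ‖1 - conj (A.pt g) * A.pt h‖) := Real.log_le_log p3 (by linarith)
    rw [Real.log_mul (by norm_num) (by positivity)] at h4
    have h5 := min_le_left (-Real.log ‖1 - conj (A.pt g) * A.pt h‖)
      (-Real.log ‖1 - conj (A.pt h) * A.pt k‖)
    linarith

/-- linear growth -/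
theorem S24_growth (h1 : S01_stmt) (h2 : S02_stmt) (W : Walk Γ) (Ak : ℕ → DiscRep Γ) (D : ℕ → ℝ)
    (hD : ∀ k, ∀ t ∈ W.S, (Ak k).L t ≤ D k) (g : Γ) :
    ∃ n : ℕ, ∃ C : ℝ, 0 ≤ C ∧ ∀ k, (Ak k).L g ≤ n * D k + C := by
  have hg : g ∈ Submonoid.closure (W.S : Set Γ) := by rw [W.gen]; trivial
  induction hg using Submonoid.closure_induction with
  | mem x hx => exact ⟨1, 0, le_refl _, fun k => by simpa using hD k x hx⟩
  | one => exact ⟨0, 0, le_refl _, fun k => by simp [S24_one h1 (Ak k)]⟩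
  | mul x y _ _ ihx ihy =>
    obtain ⟨n, C, hC, hn⟩ := ihx
    obtain ⟨m, C', hC', hm⟩ := ihy
    refine ⟨n + m, C + C' + 2 * Real.log 2, ?_, fun k => ?_⟩
    · have := Real.log_nonneg (show (1 : ℝ) ≤ 2 by norm_num)
      linarith
    · have a1 := S24_mul h2 (Ak k) x y
      have a2 := hn k
      have a3 := hm k
      push_cast
      linarith

/-- the bound for the average -/
theorem S24_phi (h18 : S18_stmt) (h20 : S20_stmt) (W : Walk Γ) (g : Γ) : ∃ C : ℝ, 0 ≤ C ∧
    ∀ (A : DiscRep Γ) (ν : Measure ℂ), Stat A W ν → Nrm ν → 0 ≤ ell A W ν ∧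
      Phi ν (A.a g) (A.b g) ≤ C * (1 + ell A W ν) := by
  obtain ⟨C, hC, hh⟩ := h20 Γ W g
  refine ⟨C, hC, fun A ν hs hn => ?_⟩
  obtain ⟨hp1, hp2⟩ := h18 Γ A W ν hs
  have key := hh (fun x => Phi ν (A.a x) (A.b x) + 1) (ell A W ν) (fun x => by
    have := hn.low (A.a x) (A.b x) (A.norm_eq x)
    linarith) (fun x => by
    have hx := hp2 x
    unfold Walk.avr at hx ⊢
    have hsum : ∑ s ∈ W.S, (W.μ s).toReal = 1 := by
      have h3 := congrArg ENNReal.toReal W.sum
      rw [ENNReal.toReal_sum] at h3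
      · simpa using h3
      · intro s hs'
        have : W.μ s ≤ 1 := by
          rw [← W.sum]
          exact Finset.single_le_sum (f := W.μ) (fun _ _ => bot_le) hs'
        exact ne_top_of_le_ne_top ENNReal.one_ne_top this
    have h4 : ∑ s ∈ W.S, (W.μ s).toReal * (Phi ν (A.a (x * s)) (A.b (x * s)) + 1) =
        ∑ s ∈ W.S, (W.μ s).toReal * Phi ν (A.a (x * s)) (A.b (x * s)) +
          ∑ s ∈ W.S, (W.μ s).toReal := by
      rw [← Finset.sum_add_distrib]
      exact Finset.sum_congr rfl fun s _ => by ring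
    rw [h4, hx, hsum]
    ring)
  refine ⟨key.1, ?_⟩
  have h5 := key.2
  simp only [hp1] at h5
  linarith

theorem S24_gp_lim (U : Ultrafilter ℕ) (Lk : ℕ → Γ → ℝ) (D : ℕ → ℝ) (Linf : Γ → ℝ)
    (hL : ∀ g, Tendsto (fun k => Lk k g / D k) U (𝓝 (Linf g))) (g h : Γ) :
    Tendsto (fun k => gp (Lk k) g h / D k) U (𝓝 (gp Linf g h)) := by
  unfold gp
  have := (((hL g).add (hL h)).sub (hL (g⁻¹ * h))).div_const 2
  refine this.congr fun k => ?_
  ring

end

theorem S24 (h1 : S01_stmt) (h2 : S02_stmt) (h18 : S18_stmt) (h20 : S20_stmt) (h22 : S22_stmt) :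
    S24_stmt := by
  intro Γ _ W U Ak νk D s hst hnrm hDtop hD hs hsD hell
  have hDpos : ∀ᶠ k in (U : Filter ℕ), 1 ≤ D k := hDtop.eventually_ge_atTop 1
  have hinv : Tendsto (fun k => (D k)⁻¹) U (𝓝 0) := tendsto_inv_atTop_zero.comp hDtop
  have hex : ∀ g, ∃ x, Tendsto (fun k => (Ak k).L g / D k) U (𝓝 x) := by
    intro g
    obtain ⟨n, C, hC, hn⟩ := S24_growth h1 h2 W Ak D hD g
    refine S24_lim U _ 0 (n + C) ?_
    filter_upwards [hDpos] with k hk
    have hk0 : 0 < D k := by linarith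
    refine ⟨div_nonneg (S24_nonneg h2 (Ak k) g) hk0.le, ?_⟩
    rw [div_le_iff₀ hk0]
    have := hn k
    nlinarith
  choose Linf hL using hex
  have hgp := S24_gp_lim U (fun k => (Ak k).L) D Linf hL
  refine ⟨Linf, hL, ?_, ?_, ?_, ?_, ?_, ?_, ?_⟩
  · refine tendsto_nhds_unique (hL 1) ?_
    simp only [S24_one h1, zero_div]
    exact tendsto_const_nhds
  · intro g
    refine ge_of_tendsto (hL g) ?_
    filter_upwards [hDpos] with k hk
    exact div_nonneg (S24_nonneg h2 (Ak k) g) (by linarith)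
  · intro g
    refine tendsto_nhds_unique (hL g⁻¹) ?_
    simp only [S24_inv h2]
    exact hL g
  · intro g h
    have hr : Tendsto (fun k => (Ak k).L g / D k + (Ak k).L h / D k + 2 * Real.log 2 * (D k)⁻¹) U
        (𝓝 (Linf g + Linf h + 2 * Real.log 2 * 0)) :=
      ((hL g).add (hL h)).add (hinv.const_mul _)
    rw [mul_zero, add_zero] at hr
    refine le_of_tendsto_of_tendsto (hL (g * h)) hr ?_
    filter_upwards [hDpos] with k hk
    have hk0 : 0 < D k := by linarith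
    rw [← div_eq_mul_inv, ← add_div, ← add_div]
    exact div_le_div_of_nonneg_right (S24_mul h2 (Ak k) g h) hk0.le
  · intro g h k'
    have hl : Tendsto (fun k => min (gp (Ak k).L g h / D k) (gp (Ak k).L h k' / D k)
        - Real.log 2 * (D k)⁻¹) U
        (𝓝 (min (gp Linf g h) (gp Linf h k') - Real.log 2 * 0)) :=
      ((hgp g h).min (hgp h k')).sub (hinv.const_mul _)
    rw [mul_zero, sub_zero] at hl
    refine le_of_tendsto_of_tendsto hl (hgp g k') ?_
    filter_upwards [hDpos] with k hk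
    have hk0 : 0 < D k := by linarith
    have h4 := S24_four h2 (Ak k) g h k'
    rw [min_div_div_right hk0.le, ← div_eq_mul_inv, ← sub_div]
    exact div_le_div_of_nonneg_right h4 hk0.le
  · intro g h
    obtain ⟨C1, hC1, hp1⟩ := S24_phi h18 h20 W g⁻¹
    obtain ⟨C2, hC2, hp2⟩ := S24_phi h18 h20 W h⁻¹
    have hl : Tendsto (fun k => min (gp (Ak k).L g h / D k)
        (min ((Ak k).L g / D k - gp (Ak k).L g h / D k)
          ((Ak k).L h / D k - gp (Ak k).L g h / D k))) U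
        (𝓝 (min (gp Linf g h) (min (Linf g - gp Linf g h) (Linf h - gp Linf g h)))) :=
      (hgp g h).min (((hL g).sub (hgp g h)).min ((hL h).sub (hgp g h)))
    have hr : Tendsto (fun k => 3 * ((C1 + C2) * ((D k)⁻¹ + ell (Ak k) W (νk k) / D k)
        + 6 * (D k)⁻¹)) U (𝓝 (3 * ((C1 + C2) * (0 + 0) + 6 * 0))) :=
      (((hinv.add hell).const_mul _).add (hinv.const_mul _)).const_mul _
    have hz : (3 : ℝ) * ((C1 + C2) * (0 + 0) + 6 * 0) = 0 := by ring
    rw [hz] at hr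
    refine le_of_tendsto_of_tendsto hl hr ?_
    filter_upwards [hDpos] with k hk
    have hk0 : 0 < D k := by linarith
    obtain ⟨hl0, q1⟩ := hp1 (Ak k) (νk k) (hst k) (hnrm k)
    obtain ⟨_, q2⟩ := hp2 (Ak k) (νk k) (hst k) (hnrm k)
    set l := ell (Ak k) W (νk k) with hldef
    have hB := h22 Γ (Ak k) (νk k) (hnrm k) g h ((C1 + C2) * (1 + l)) (by positivity)
      (by nlinarith) (by nlinarith)
    have e1 : min (gp (Ak k).L g h / D k)
        (min ((Ak k).L g / D k - gp (Ak k).L g h / D k)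
          ((Ak k).L h / D k - gp (Ak k).L g h / D k)) =
        min (gp (Ak k).L g h) (min ((Ak k).L g - gp (Ak k).L g h)
          ((Ak k).L h - gp (Ak k).L g h)) / D k := by
      rw [← sub_div, ← sub_div, min_div_div_right hk0.le, min_div_div_right hk0.le]
    have e2 : 3 * ((C1 + C2) * ((D k)⁻¹ + l / D k) + 6 * (D k)⁻¹) =
        3 * ((C1 + C2) * (1 + l) + 6) / D k := by
      field_simp
    rw [e1, e2]
    exact div_le_div_of_nonneg_right hB hk0.le
  · refine tendsto_nhds_unique (hL s) ?_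
    refine tendsto_const_nhds.congr' ?_
    filter_upwards [hDpos, hsD] with k hk hk2
    rw [hk2, div_self (by linarith)]

end Pool.Agent.SG
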